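import Pool.Agent.Y285.SPr.Fam

/-!
# The families converge to the automorphism with all derivatives, uniformly
-/

set_option autoImplicit false

open Set Filter Topology MeasureTheory Function
open scoped ContDiff ENNReal Real

namespace Pool.Agent.Y285.SPr

open Pool.Agent.H165P

theorem small_cpt (k : ℕ) : ∀ {E' : Type} [NormedAddCommGroup E'] [NormedSpace ℝ E']
    (Φ : ℝ → ℝ × ℝ → E') (_ : ContDiff ℝ ∞ (uncurry Φ)) (_ : ∀ z, Φ 0 z = 0)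
    (T : Set (ℝ × ℝ)) (_ : IsCompact T) (ε : ℝ) (_ : 0 < ε),
    ∀ᶠ κ in 𝓝 (0 : ℝ), ∀ z ∈ T, ‖iteratedFDeriv ℝ k (Φ κ) z‖ < ε := by
  induction k with
  | zero =>
    intro E' _ _ Φ hΦ h0 T hT ε hε
    apply hT.eventually_forall_of_forall_eventually
    intro z _
    have h1 : Tendsto (fun q : ℝ × (ℝ × ℝ) => ‖iteratedFDeriv ℝ 0 (Φ q.1) q.2‖) (𝓝 (0, z))
        (𝓝 0) := by
      have h2 : Tendsto (fun q : ℝ × (ℝ × ℝ) => ‖uncurry Φ q‖) (𝓝 (0, z)) (𝓝 ‖uncurry Φ (0, z)‖) :=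
        (hΦ.continuous.norm).tendsto _
      have h3 : ‖uncurry Φ (0, z)‖ = 0 := by
        show ‖Φ 0 z‖ = 0
        rw [h0, norm_zero]
      rw [h3] at h2
      refine h2.congr fun q => ?_
      rw [norm_iteratedFDeriv_zero]
      rfl
    exact h1.eventually (gt_mem_nhds hε)
  | succ k ih =>
    intro E' _ _ Φ hΦ h0 T hT ε hε
    have h1 : ContDiff ℝ ∞ (uncurry fun κ z => fderiv ℝ (Φ κ) z) := by
      have h2 : ContDiff ℝ ∞ (uncurry fun (q : ℝ × (ℝ × ℝ)) (z : ℝ × ℝ) => Φ q.1 z) :=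
        hΦ.comp ((contDiff_fst.comp contDiff_fst).prodMk contDiff_snd)
      have h3 := h2.fderiv (n := ∞) (g := fun q : ℝ × (ℝ × ℝ) => q.2) contDiff_snd le_rfl
      exact h3
    have h2 : ∀ z, fderiv ℝ (Φ 0) z = 0 := by
      intro z
      have : Φ 0 = fun _ => 0 := funext h0
      rw [this]
      simp
    have h3 := ih (fun κ z => fderiv ℝ (Φ κ) z) h1 h2 T hT ε hε
    filter_upwards [h3] with κ hκ z hz
    rw [← norm_iteratedFDeriv_fderiv]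
    exact hκ z hz

/-- a periodic family vanishing at the parameter `0` is small with all derivatives -/
theorem small_per {E' : Type} [NormedAddCommGroup E'] [NormedSpace ℝ E']
    (Φ : ℝ → ℝ × ℝ → E') (hΦ : ContDiff ℝ ∞ (uncurry Φ)) (h0 : ∀ z, Φ 0 z = 0)
    (hper : ∀ (κ : ℝ) (x y : ℝ) (m n : ℤ), Φ κ (x + m, y + n) = Φ κ (x, y)) (K : ℕ) {ε : ℝ}
    (hε : 0 < ε) :
    ∃ δ : ℝ, 0 < δ ∧ ∀ κ : ℝ, 0 < κ → κ < δ → ∀ k ≤ K, ∀ z, ‖iteratedFDeriv ℝ k (Φ κ) z‖ < ε := by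
  have h1 : ∀ᶠ κ in 𝓝 (0 : ℝ), ∀ k ∈ Finset.range (K + 1), ∀ z ∈ Icc (0 : ℝ × ℝ) 1,
      ‖iteratedFDeriv ℝ k (Φ κ) z‖ < ε := by
    rw [Finset.eventually_all]
    intro k _
    exact small_cpt k Φ hΦ h0 _ isCompact_Icc ε hε
  obtain ⟨δ, hδ, hδ2⟩ := Metric.eventually_nhds_iff.1 h1
  refine ⟨δ, hδ, fun κ hκ0 hκ k hk z => ?_⟩
  have h2 := hδ2 (y := κ) (by rw [Real.dist_eq, sub_zero, abs_of_pos hκ0]; exact hκ) k
    (Finset.mem_range.2 (by omega)) (Int.fract z.1, Int.fract z.2)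
    ⟨⟨Int.fract_nonneg _, Int.fract_nonneg _⟩, ⟨(Int.fract_lt_one _).le, (Int.fract_lt_one _).le⟩⟩
  have h3 : (fun w : ℝ × ℝ => Φ κ (w + ((⌊z.1⌋ : ℝ), (⌊z.2⌋ : ℝ)))) = Φ κ := by
    funext w
    exact hper κ w.1 w.2 _ _
  have h4 := iteratedFDeriv_comp_add_right (𝕜 := ℝ) (f := Φ κ) k ((⌊z.1⌋ : ℝ), (⌊z.2⌋ : ℝ))
    (Int.fract z.1, Int.fract z.2)
  rw [h3] at h4
  rw [h4] at h2
  have h5 : ((Int.fract z.1, Int.fract z.2) : ℝ × ℝ) + ((⌊z.1⌋ : ℝ), (⌊z.2⌋ : ℝ)) = z := by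
    ext
    · simp
    · simp
  rwa [h5] at h2

/-- the linear automorphism -/
def Aut (z : ℝ × ℝ) : ℝ × ℝ := (10 * z.1 + 3 * z.2, 3 * z.1 + z.2)

theorem Aut_contDiff : ContDiff ℝ ∞ Aut :=
  ((contDiff_const.mul contDiff_fst).add (contDiff_const.mul contDiff_snd)).prodMk
    ((contDiff_const.mul contDiff_fst).add contDiff_snd)

theorem Sk_per (κ x y : ℝ) (m n : ℤ) :
    Sk κ (x + m, y + n) = ((Sk κ (x, y)).1 + m, (Sk κ (x, y)).2 + n) := by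
  unfold Sk
  simp only [w_int]
  have h : y + n + κ / 100 * w x = (y + κ / 100 * w x) + n := by ring
  rw [h, w_int]
  ext
  · simp only; ring
  · simp only

theorem Fk_per (κ x y : ℝ) (m n : ℤ) :
    Fk κ (x + m, y + n) - Aut (x + m, y + n) = Fk κ (x, y) - Aut (x, y) := by
  unfold Fk Aut
  rw [Sk_per]
  ext
  · simp only [Prod.fst_sub]; ring
  · simp only [Prod.snd_sub]; ring

theorem Sik_per (κ x y : ℝ) (m n : ℤ) :
    Sik κ (x + m, y + n) = ((Sik κ (x, y)).1 + m, (Sik κ (x, y)).2 + n) := by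
  unfold Sik
  simp only [w_int]
  have h : x + m - 3 * κ / 100 * w y = (x - 3 * κ / 100 * w y) + m := by ring
  rw [h, w_int]
  ext
  · simp only
  · simp only; ring

theorem Gk_per (κ x y : ℝ) (m n : ℤ) :
    Gk κ (x + m, y + n) - Aut (x + m, y + n) = Gk κ (x, y) - Aut (x, y) := by
  unfold Gk Aut Fik J Ji
  simp only
  have h1 := Sik_per κ (y - 3 * -x) (-3 * y + 10 * -x) (n + 3 * m) (-3 * n - 10 * m)
  have e1 : y - 3 * -x + ((n + 3 * m : ℤ) : ℝ) = y + n - 3 * -(x + m) := by push_cast; ring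
  have e2 : -3 * y + 10 * -x + ((-3 * n - 10 * m : ℤ) : ℝ) = -3 * (y + n) + 10 * -(x + m) := by
    push_cast; ring
  rw [e1, e2] at h1
  rw [h1]
  ext
  · simp only [Prod.fst_sub]; push_cast; ring
  · simp only [Prod.snd_sub]; push_cast; ring

theorem close_F (K : ℕ) {ε : ℝ} (hε : 0 < ε) : ∃ δ : ℝ, 0 < δ ∧ ∀ κ : ℝ, 0 < κ → κ < δ →
    ∀ k ≤ K, ∀ z, ‖iteratedFDeriv ℝ k (fun z => Fk κ z - Aut z) z‖ < ε :=
  small_per (fun κ z => Fk κ z - Aut z) (Fk_contDiff.sub (Aut_contDiff.comp contDiff_snd))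
    (fun z => by rw [Fk_zero]; exact sub_self _) (fun κ x y m n => Fk_per κ x y m n) K hε

theorem close_G (K : ℕ) {ε : ℝ} (hε : 0 < ε) : ∃ δ : ℝ, 0 < δ ∧ ∀ κ : ℝ, 0 < κ → κ < δ →
    ∀ k ≤ K, ∀ z, ‖iteratedFDeriv ℝ k (fun z => Gk κ z - Aut z) z‖ < ε :=
  small_per (fun κ z => Gk κ z - Aut z) (Gk_contDiff.sub (Aut_contDiff.comp contDiff_snd))
    (fun z => by rw [Gk_zero]; exact sub_self _) (fun κ x y m n => Gk_per κ x y m n) K hε

end Pool.Agent.Y285.SPr
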