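import Pool.Agent.Y285.SPr.MP

/-!
# The two diffeomorphisms are not smoothly conjugate
-/

set_option autoImplicit false

open Set Filter Topology MeasureTheory Function
open scoped ContDiff ENNReal Real

namespace Pool.Agent.Y285.SPr

open Pool.Agent.H165P

open Pool.Agent.H165R3 (tl tl_pr tl_cont pr pr_surj pr_add_left pr_add_right per_int rep coe_rep
  coe_eq_iff rep_meas pr_quot)

lemma w_lip (a b : ℝ) : |w a - w b| ≤ 6 / 5 * |a - b| := by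
  have := convex_univ.norm_image_sub_le_of_norm_hasDerivWithin_le (f := w) (f' := w') (C := 6 / 5)
    (fun x _ => (w_deriv x).hasDerivWithinAt) (fun x _ => w'_bound x) (mem_univ b) (mem_univ a)
  simpa [Real.norm_eq_abs] using this

lemma w_third (i : ℤ) : w (i / 3) = 0 := by
  unfold w
  have h : Real.cos (8 * π * (i / 3)) = Real.cos (4 * π * (i / 3)) := by
    rw [← Real.cos_int_mul_two_pi_sub (4 * π * (i / 3)) (2 * i)]
    congr 1
    push_cast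
    ring
  rw [h, sub_self, zero_div]

lemma chi_cases (i : ℤ) : (i % 3 = 0 ∧ w' (i / 3) = 0) ∨ (i % 3 = 1 ∧ w' (i / 3) = 1) ∨
    (i % 3 = 2 ∧ w' (i / 3) = -1) := by
  have h0 : w' 0 = 0 := by unfold w'; simp
  have hs : Real.sin (4 * π * (1 / 3)) = -(Real.sqrt 3 / 2) := by
    rw [show 4 * π * (1 / 3) = π / 3 + π by ring, Real.sin_add_pi, Real.sin_pi_div_three]
  have hs2 : Real.sin (8 * π * (1 / 3)) = Real.sqrt 3 / 2 := by
    rw [show 8 * π * (1 / 3) = (π - π / 3) + 2 * π by ring, Real.sin_add_two_pi, Real.sin_pi_sub,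
      Real.sin_pi_div_three]
  have hs3 : Real.sin (4 * π * (2 / 3)) = Real.sqrt 3 / 2 := by
    rw [← hs2]; congr 1; ring
  have hs4 : Real.sin (8 * π * (2 / 3)) = -(Real.sqrt 3 / 2) := by
    rw [show 8 * π * (2 / 3) = (4 * π * (1 / 3)) + 2 * π + 2 * π by ring, Real.sin_add_two_pi,
      Real.sin_add_two_pi, hs]
  have h3 := sqrt3_pos
  have h1 : w' (1 / 3) = 1 := by
    unfold w'
    rw [hs, hs2, div_eq_one_iff_eq (by positivity)]
    ring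
  have h2 : w' (2 / 3) = -1 := by
    unfold w'
    rw [hs3, hs4, div_eq_iff (by positivity)]
    ring
  have hdec : (i : ℝ) / 3 = ((i % 3 : ℤ) : ℝ) / 3 + ((i / 3 : ℤ) : ℝ) := by
    have := Int.emod_add_mul_ediv i 3
    have h4 : (i : ℝ) = ((i % 3 : ℤ) : ℝ) + 3 * ((i / 3 : ℤ) : ℝ) := by exact_mod_cast this.symm
    linarith
  rw [hdec, w'_int]
  have h5 : i % 3 = 0 ∨ i % 3 = 1 ∨ i % 3 = 2 := by omega
  rcases h5 with h | h | h
  · left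
    refine ⟨h, ?_⟩
    rw [h, Int.cast_zero, zero_div, h0]
  · right; left
    refine ⟨h, ?_⟩
    rw [h, Int.cast_one, h1]
  · right; right
    refine ⟨h, ?_⟩
    rw [h]
    push_cast
    exact h2

variable [Amp]

lemma S_fix (i j : ℤ) : S ((i : ℝ) / 3, (j : ℝ) / 3) = ((i : ℝ) / 3, (j : ℝ) / 3) := by
  unfold S
  simp only [w_third, mul_zero, add_zero]

lemma F_fix (i j : ℤ) : F ((i : ℝ) / 3, (j : ℝ) / 3)
    = ((i : ℝ) / 3 + ((3 * i + j : ℤ) : ℝ), (j : ℝ) / 3 + ((i : ℤ) : ℝ)) := by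
  unfold F
  rw [S_fix]
  push_cast
  ext
  · simp only; ring
  · simp only; ring

lemma F_inj {y z : ℝ × ℝ} (h1 : (F y).1 - y.1 = (F z).1 - z.1)
    (h2 : (F y).2 - y.2 = (F z).2 - z.2) : y = z := by
  set t := ta * w y.1 - ta * w z.1 with ht
  set s := tb * w (y.2 + ta * w y.1) - tb * w (z.2 + ta * w z.1) with hs
  have e1 : (F y).1 = 10 * (y.1 + tb * w (y.2 + ta * w y.1))
      + 3 * (y.2 + ta * w y.1) := rfl
  have e2 : (F z).1 = 10 * (z.1 + tb * w (z.2 + ta * w z.1))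
      + 3 * (z.2 + ta * w z.1) := rfl
  have e3 : (F y).2 = 3 * (y.1 + tb * w (y.2 + ta * w y.1))
      + (y.2 + ta * w y.1) := rfl
  have e4 : (F z).2 = 3 * (z.1 + tb * w (z.2 + ta * w z.1))
      + (z.2 + ta * w z.1) := rfl
  rw [e1, e2] at h1
  rw [e3, e4] at h2
  have d1 : y.1 - z.1 = -s - t / 3 := by rw [hs, ht]; linarith
  have d2 : y.2 - z.2 = -s / 3 := by rw [hs]; linarith
  have b1 : |t| ≤ 3 / 250 * |y.1 - z.1| := by
    have h := w_lip y.1 z.1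
    have e : t = ta * (w y.1 - w z.1) := by rw [ht]; ring
    rw [e, abs_mul, abs_of_pos ta_pos]
    calc ta * |w y.1 - w z.1| ≤ 1 / 100 * (6 / 5 * |y.1 - z.1|) :=
          mul_le_mul ta_le h (abs_nonneg _) (by norm_num)
      _ = 3 / 250 * |y.1 - z.1| := by ring
  have b2 : |s| ≤ 9 / 250 * (|y.2 - z.2| + |t|) := by
    have h := w_lip (y.2 + ta * w y.1) (z.2 + ta * w z.1)
    have e : s = tb * (w (y.2 + ta * w y.1) - w (z.2 + ta * w z.1)) := by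
      rw [hs]; ring
    have e5 : y.2 + ta * w y.1 - (z.2 + ta * w z.1) = (y.2 - z.2) + t := by
      rw [ht]; ring
    rw [e5] at h
    have h6 := abs_add_le (y.2 - z.2) t
    rw [e, abs_mul, abs_of_pos tb_pos]
    calc tb * |w (y.2 + ta * w y.1) - w (z.2 + ta * w z.1)| ≤
          3 / 100 * (6 / 5 * (|y.2 - z.2| + |t|)) :=
          mul_le_mul tb_le (by linarith) (abs_nonneg _) (by norm_num)
      _ = 9 / 250 * (|y.2 - z.2| + |t|) := by ring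
  have b3 : |y.1 - z.1| ≤ |s| + |t| / 3 := by
    rw [d1]
    have h6 := abs_add_le (-s) (-(t / 3))
    rw [abs_neg, abs_neg, abs_div, abs_of_pos (by norm_num : (0 : ℝ) < 3)] at h6
    have e : -s - t / 3 = -s + -(t / 3) := by ring
    rw [e]
    exact h6
  have b4 : |y.2 - z.2| ≤ |s| / 3 := by
    rw [d2, abs_div, abs_neg, abs_of_pos (by norm_num : (0 : ℝ) < 3)]
  have p1 := abs_nonneg (y.1 - z.1)
  have p2 := abs_nonneg (y.2 - z.2)
  have p3 := abs_nonneg s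
  have p4 := abs_nonneg t
  have z1 : |y.1 - z.1| = 0 := by linarith
  have z2 : |y.2 - z.2| = 0 := by linarith
  ext
  · linarith [abs_eq_zero.mp z1]
  · linarith [abs_eq_zero.mp z2]

lemma F_uniq {y : ℝ × ℝ} {m1 m2 : ℤ} (h : F y = (y.1 + m1, y.2 + m2)) :
    y = (((m2 : ℤ) : ℝ) / 3, ((m1 - 3 * m2 : ℤ) : ℝ) / 3) := by
  have h1 := F_fix m2 (m1 - 3 * m2)
  apply F_inj
  · rw [h, h1]
    push_cast
    ring
  · rw [h, h1]
    push_cast
    ring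

lemma G_uniq {q : ℝ × ℝ} {n1 n2 : ℤ} (h : G q = (q.1 + n1, q.2 + n2)) :
    q = (((n2 : ℤ) : ℝ) / 3, ((n1 - 3 * n2 : ℤ) : ℝ) / 3) := by
  have h1 : Fi (J q) = (q.2 + n2, -(q.1 + n1)) := by
    have := congrArg J h
    unfold G at this
    rw [J_Ji] at this
    rw [this]
    rfl
  have h2 : J q = F (q.2 + n2, -(q.1 + n1)) := by rw [← h1, F_Fi]
  have h3 := F_eq q.2 (-q.1) n2 (-n1)
  have e1 : (-q.1 + ((-n1 : ℤ) : ℝ)) = -(q.1 + n1) := by push_cast; ring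
  rw [e1, ← h2] at h3
  have h4 : F (J q) = ((J q).1 + ((3 * n1 - 10 * n2 : ℤ) : ℝ), (J q).2 + ((n1 - 3 * n2 : ℤ) : ℝ)) := by
    have e2 : F (J q) = F (q.2, -q.1) := rfl
    have a1 := congrArg Prod.fst h3
    have a2 := congrArg Prod.snd h3
    simp only at a1 a2
    rw [e2]
    push_cast at a1 a2 ⊢
    ext
    · simp only; linarith
    · simp only; linarith
  have h5 := F_uniq h4
  have h6 := congrArg Ji h5
  rw [Ji_J] at h6
  rw [h6]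
  unfold Ji
  push_cast
  ext
  · simp only; ring
  · simp only

/-! traces -/

omit [Amp] in
lemma trace_mat (a b c d : ℝ) :
    LinearMap.trace ℝ (ℝ × ℝ) (mat a b c d : ℝ × ℝ →ₗ[ℝ] ℝ × ℝ) = a + d := by
  rw [LinearMap.trace_eq_matrix_trace ℝ (Module.Basis.finTwoProd ℝ), Matrix.trace_fin_two,
    LinearMap.toMatrix_apply, LinearMap.toMatrix_apply]
  simp

omit [Amp] in
lemma trace_conj {T M N L : ℝ × ℝ →L[ℝ] ℝ × ℝ} (h1 : T.comp M = N.comp T)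
    (h2 : L.comp T = ContinuousLinearMap.id ℝ (ℝ × ℝ)) :
    LinearMap.trace ℝ (ℝ × ℝ) (M : ℝ × ℝ →ₗ[ℝ] ℝ × ℝ)
      = LinearMap.trace ℝ (ℝ × ℝ) (N : ℝ × ℝ →ₗ[ℝ] ℝ × ℝ) := by
  have e1 : (L : ℝ × ℝ →ₗ[ℝ] ℝ × ℝ) * (T : ℝ × ℝ →ₗ[ℝ] ℝ × ℝ) = 1 := by
    apply LinearMap.ext
    intro v
    exact congrArg (fun A : ℝ × ℝ →L[ℝ] ℝ × ℝ => A v) h2
  have e2 : (T : ℝ × ℝ →ₗ[ℝ] ℝ × ℝ) * (L : ℝ × ℝ →ₗ[ℝ] ℝ × ℝ) = 1 :=
    mul_eq_one_comm.mp e1
  have e3 : (T : ℝ × ℝ →ₗ[ℝ] ℝ × ℝ) * (M : ℝ × ℝ →ₗ[ℝ] ℝ × ℝ)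
      = (N : ℝ × ℝ →ₗ[ℝ] ℝ × ℝ) * (T : ℝ × ℝ →ₗ[ℝ] ℝ × ℝ) := by
    apply LinearMap.ext
    intro v
    exact congrArg (fun A : ℝ × ℝ →L[ℝ] ℝ × ℝ => A v) h1
  calc LinearMap.trace ℝ (ℝ × ℝ) (M : ℝ × ℝ →ₗ[ℝ] ℝ × ℝ)
      = LinearMap.trace ℝ (ℝ × ℝ) ((L : ℝ × ℝ →ₗ[ℝ] ℝ × ℝ) *
        ((T : ℝ × ℝ →ₗ[ℝ] ℝ × ℝ) * (M : ℝ × ℝ →ₗ[ℝ] ℝ × ℝ))) := by
          rw [← mul_assoc, e1, one_mul]
    _ = LinearMap.trace ℝ (ℝ × ℝ) (((T : ℝ × ℝ →ₗ[ℝ] ℝ × ℝ) * (M : ℝ × ℝ →ₗ[ℝ] ℝ × ℝ)) *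
        (L : ℝ × ℝ →ₗ[ℝ] ℝ × ℝ)) := LinearMap.trace_mul_comm _ _ _
    _ = LinearMap.trace ℝ (ℝ × ℝ) (N : ℝ × ℝ →ₗ[ℝ] ℝ × ℝ) := by
          rw [e3, mul_assoc, e2, mul_one]

/-- the trace function at the fixed points -/
noncomputable def tauk (t : ℝ) (i j : ℤ) : ℝ :=
  11 + 3 * t * (w' (i / 3) + 3 * w' (j / 3) + 10 * t * (w' (i / 3) * w' (j / 3)))

/-- the trace function at the fixed points -/
noncomputable def tau (i j : ℤ) : ℝ := tauk ta i j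

lemma tb_eq : tb = 3 * ta := by unfold tb ta; ring

lemma trace_F (i j : ℤ) : ca ((i : ℝ) / 3, (j : ℝ) / 3) + cd ((i : ℝ) / 3, (j : ℝ) / 3) = tau i j := by
  unfold ca cd pp qq tau tauk
  simp only [w_third, mul_zero, add_zero]
  rw [tb_eq]
  ring

omit [Amp] in
lemma tauk_per (t : ℝ) (i j m n : ℤ) : tauk t (i + 3 * m) (j + 3 * n) = tauk t i j := by
  have h : ∀ i m : ℤ, w' (((i + 3 * m : ℤ) : ℝ) / 3) = w' (i / 3) := by
    intro i m
    rw [← w'_int (i / 3) m]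
    congr 1
    push_cast
    ring
  unfold tauk
  rw [h, h]

lemma tau_per (i j m n : ℤ) : tau (i + 3 * m) (j + 3 * n) = tau i j := tauk_per _ _ _ _ _

lemma G_fderiv (q : ℝ × ℝ) : ∃ b c, fderiv ℝ G q
    = mat (ca (Fi (J q))) b c (cd (Fi (J q))) := by
  have h1 : HasFDerivAt J (mat 0 1 (-1) 0) q := by
    have h2 := (hasFDerivAt_snd (𝕜 := ℝ) (p := q)).prodMk (hasFDerivAt_fst (𝕜 := ℝ) (p := q)).neg
    refine h2.congr_fderiv ?_
    apply ContinuousLinearMap.ext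
    intro v
    simp
  have h3 : ∀ y, HasFDerivAt Ji (mat 0 (-1) 1 0) y := by
    intro y
    have h2 := (hasFDerivAt_snd (𝕜 := ℝ) (p := y)).neg.prodMk (hasFDerivAt_fst (𝕜 := ℝ) (p := y))
    refine h2.congr_fderiv ?_
    apply ContinuousLinearMap.ext
    intro v
    simp
  have h5 := (h3 (Fi (J q))).comp q ((Fi_deriv (J q)).comp q h1)
  have h6 : fderiv ℝ G q = (mat 0 (-1) 1 0).comp ((mat (cd (Fi (J q))) (-cb (Fi (J q)))
      (-cc (Fi (J q))) (ca (Fi (J q)))).comp (mat 0 1 (-1) 0)) := h5.fderiv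
  refine ⟨cc (Fi (J q)), cb (Fi (J q)), ?_⟩
  rw [h6, mat_comp, mat_comp]
  congr 1 <;> ring

lemma trace_G (a b : ℤ) : LinearMap.trace ℝ (ℝ × ℝ)
    (fderiv ℝ G ((a : ℝ) / 3, (b : ℝ) / 3) : ℝ × ℝ →ₗ[ℝ] ℝ × ℝ) = tau b (-a) := by
  obtain ⟨b', c', h⟩ := G_fderiv ((a : ℝ) / 3, (b : ℝ) / 3)
  rw [h, trace_mat]
  have h1 : Fi (J ((a : ℝ) / 3, (b : ℝ) / 3))
      = (((b + 3 * a : ℤ) : ℝ) / 3, ((-a + 3 * (-3 * a - b) : ℤ) : ℝ) / 3) := by
    have h2 : F (((b + 3 * a : ℤ) : ℝ) / 3, ((-a + 3 * (-3 * a - b) : ℤ) : ℝ) / 3)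
        = J ((a : ℝ) / 3, (b : ℝ) / 3) := by
      rw [F_fix]
      unfold J
      push_cast
      ext
      · simp only; ring
      · simp only; ring
    rw [← h2, Fi_F]
  rw [h1, trace_F, tau_per]

omit [Amp] in
lemma tauk_inj {t : ℝ} (h0 : 0 < t) (h1 : t ≤ 1 / 100) {i j a b : ℤ}
    (h : tauk t i j = tauk t a b) : i % 3 = a % 3 ∧ j % 3 = b % 3 := by
  unfold tauk at h
  have h2 : w' (i / 3) + 3 * w' (j / 3) + 10 * t * (w' (i / 3) * w' (j / 3)) =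
      w' (a / 3) + 3 * w' (b / 3) + 10 * t * (w' (a / 3) * w' (b / 3)) := by
    have h3 : 3 * t * (w' (i / 3) + 3 * w' (j / 3) + 10 * t * (w' (i / 3) * w' (j / 3))) =
      3 * t * (w' (a / 3) + 3 * w' (b / 3) + 10 * t * (w' (a / 3) * w' (b / 3))) := by linarith
    exact mul_left_cancel₀ (by positivity) h3
  rcases chi_cases i with ⟨hi, ei⟩ | ⟨hi, ei⟩ | ⟨hi, ei⟩ <;>
  rcases chi_cases j with ⟨hj, ej⟩ | ⟨hj, ej⟩ | ⟨hj, ej⟩ <;>
  rcases chi_cases a with ⟨ha, ea⟩ | ⟨ha, ea⟩ | ⟨ha, ea⟩ <;>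
  rcases chi_cases b with ⟨hb, eb⟩ | ⟨hb, eb⟩ | ⟨hb, eb⟩ <;>
  rw [ei, ej, ea, eb] at h2 <;>
  first
    | (refine ⟨?_, ?_⟩ <;> omega)
    | (exfalso; linarith)

omit [Amp] in
lemma proj_eq_iff {y z : ℝ × ℝ} : proj y = proj z ↔ ∃ m n : ℤ, y = (z.1 + m, z.2 + n) := by
  constructor
  · intro h
    obtain ⟨m, hm⟩ := coe_eq_iff.mp (congrArg Prod.fst h)
    obtain ⟨n, hn⟩ := coe_eq_iff.mp (congrArg Prod.snd h)
    exact ⟨m, n, Prod.ext hm hn⟩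
  · rintro ⟨m, n, h⟩
    rw [h]
    exact Prod.ext (coe_eq_iff.mpr ⟨m, rfl⟩) (coe_eq_iff.mpr ⟨n, rfl⟩)

omit [Amp] in
/-- two continuous maps with the same projection differ by a constant -/
lemma const_diff {f g : ℝ × ℝ → ℝ × ℝ} (hf : Continuous f) (hg : Continuous g)
    (h : ∀ z, proj (f z) = proj (g z)) :
    ∃ m n : ℤ, ∀ z, f z = ((g z).1 + m, (g z).2 + n) := by
  obtain ⟨m, n, hmn⟩ := proj_eq_iff.mp (h 0)
  refine ⟨m, n, fun z => ?_⟩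
  have key : ∀ φ : ℝ × ℝ → ℝ, Continuous φ → (∀ z, (φ z : UnitAddCircle) = 0) → φ z = φ 0 := by
    intro φ hφ h0
    exact (AddCircle.isCoveringMap_coe (1 : ℝ)).const_of_comp hφ
      (fun a a' => (h0 a).trans (h0 a').symm) z 0
  have k1 := key (fun z => (f z).1 - (g z).1)
    ((continuous_fst.comp hf).sub (continuous_fst.comp hg)) (fun z => by
      have := congrArg Prod.fst (h z)
      rw [AddCircle.coe_sub]
      exact sub_eq_zero.mpr this)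
  have k2 := key (fun z => (f z).2 - (g z).2)
    ((continuous_snd.comp hf).sub (continuous_snd.comp hg)) (fun z => by
      have := congrArg Prod.snd (h z)
      rw [AddCircle.coe_sub]
      exact sub_eq_zero.mpr this)
  have e1 := congrArg Prod.fst hmn
  have e2 := congrArg Prod.snd hmn
  simp only at e1 e2
  ext
  · simp only; linarith
  · simp only; linarith

end Pool.Agent.Y285.SPr
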