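import Pool.Agent.Y285.SPr.Conj

/-!
# Smooth conjugacies act affinely on the fixed points
-/

set_option autoImplicit false

open Set Filter Topology MeasureTheory Function
open scoped ContDiff ENNReal Real

namespace Pool.Agent.Y285.SPr

open Pool.Agent.H165P

open Pool.Agent.H165R3 (tl tl_pr tl_cont pr pr_surj pr_add_left pr_add_right per_int rep coe_rep
  coe_eq_iff rep_meas pr_quot)

theorem conj_main {F1 F2 : ℝ × ℝ → ℝ × ℝ} (F1s : ContDiff ℝ ∞ F1) (F2s : ContDiff ℝ ∞ F2)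
    (equi1 : Equi F1 10 3 3 1) (equi2 : Equi F2 10 3 3 1)
    (hfix : ∀ i j : ℤ, F1 ((i : ℝ) / 3, (j : ℝ) / 3)
      = ((i : ℝ) / 3 + ((3 * i + j : ℤ) : ℝ), (j : ℝ) / 3 + ((i : ℤ) : ℝ)))
    (huniq : ∀ (q : ℝ × ℝ) (n1 n2 : ℤ), F2 q = (q.1 + n1, q.2 + n2) →
      q = (((n2 : ℤ) : ℝ) / 3, ((n1 - 3 * n2 : ℤ) : ℝ) / 3))
    (t1 t2 : ℤ → ℤ → ℝ)
    (ht1 : ∀ i j : ℤ, LinearMap.trace ℝ (ℝ × ℝ)
      (fderiv ℝ F1 ((i : ℝ) / 3, (j : ℝ) / 3) : ℝ × ℝ →ₗ[ℝ] ℝ × ℝ) = t1 i j)
    (ht2 : ∀ i j : ℤ, LinearMap.trace ℝ (ℝ × ℝ)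
      (fderiv ℝ F2 ((i : ℝ) / 3, (j : ℝ) / 3) : ℝ × ℝ →ₗ[ℝ] ℝ × ℝ) = t2 i j)
    (hcj : AreSmoothlyConjugate (dsc F1) (dsc F2)) :
    ∃ c11 c12 c21 c22 k1 k2 : ℤ, c12 = c21 ∧ ∀ i j : ℤ, ∃ a b : ℤ,
      a = c21 * (3 * i + j) + c22 * i - k2 ∧
      b = (c11 * (3 * i + j) + c12 * i - k1) - 3 * a ∧ t1 i j = t2 a b := by
  obtain ⟨h, H, ⟨⟨Hs, Hl⟩, k, K, ⟨Ks, Kl⟩, hkl, -⟩, hconj⟩ := hcj
  have Hc : Continuous H := Hs.continuous
  have Kc : Continuous K := Ks.continuous
  -- equivariance of the lift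
  obtain ⟨c11, c21, hc1⟩ := const_diff (f := fun z => H (z.1 + 1, z.2)) (g := H)
    (Hc.comp (by fun_prop)) Hc (fun z => by
      rw [← Hl, ← Hl]
      congr 1
      exact proj_eq_iff.mpr ⟨1, 0, by simp⟩)
  obtain ⟨c12, c22, hc2⟩ := const_diff (f := fun z => H (z.1, z.2 + 1)) (g := H)
    (Hc.comp (by fun_prop)) Hc (fun z => by
      rw [← Hl, ← Hl]
      congr 1
      exact proj_eq_iff.mpr ⟨0, 1, by simp⟩)
  have hequi : Equi H c11 c12 c21 c22 := by
    intro x y m n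
    have hc1' : ∀ x y : ℝ, H (x + 1, y) = ((H (x, y)).1 + c11, (H (x, y)).2 + c21) :=
      fun x y => hc1 (x, y)
    have hc2' : ∀ x y : ℝ, H (x, y + 1) = ((H (x, y)).1 + c12, (H (x, y)).2 + c22) :=
      fun x y => hc2 (x, y)
    have s1 : ∀ y : ℝ, H (x + m, y) = ((H (x, y)).1 + m * c11, (H (x, y)).2 + m * c21) := by
      intro y
      have p1 := per_int (u := fun x => (H (x, y)).1 - x * c11) (fun x => by
        show (H (x + 1, y)).1 - (x + 1) * c11 = (H (x, y)).1 - x * c11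
        rw [hc1']; ring) x m
      have p2 := per_int (u := fun x => (H (x, y)).2 - x * c21) (fun x => by
        show (H (x + 1, y)).2 - (x + 1) * c21 = (H (x, y)).2 - x * c21
        rw [hc1']; ring) x m
      have p1' : (H (x + m, y)).1 - (x + m) * c11 = (H (x, y)).1 - x * c11 := p1
      have p2' : (H (x + m, y)).2 - (x + m) * c21 = (H (x, y)).2 - x * c21 := p2
      ext
      · simp only; linarith
      · simp only; linarith
    have s2 : ∀ x : ℝ, H (x, y + n) = ((H (x, y)).1 + n * c12, (H (x, y)).2 + n * c22) := by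
      intro x
      have p1 := per_int (u := fun y => (H (x, y)).1 - y * c12) (fun y => by
        show (H (x, y + 1)).1 - (y + 1) * c12 = (H (x, y)).1 - y * c12
        rw [hc2']; ring) y n
      have p2 := per_int (u := fun y => (H (x, y)).2 - y * c22) (fun y => by
        show (H (x, y + 1)).2 - (y + 1) * c22 = (H (x, y)).2 - y * c22
        rw [hc2']; ring) y n
      have p1' : (H (x, y + n)).1 - (y + n) * c12 = (H (x, y)).1 - y * c12 := p1
      have p2' : (H (x, y + n)).2 - (y + n) * c22 = (H (x, y)).2 - y * c22 := p2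
      ext
      · simp only; linarith
      · simp only; linarith
    rw [s1, s2]
    push_cast
    ext
    · simp only; ring
    · simp only; ring
  -- conjugacy on the plane
  obtain ⟨k1, k2, hk⟩ := const_diff (f := fun z => H (F1 z)) (g := fun z => F2 (H z))
    (Hc.comp F1s.continuous) (F2s.continuous.comp Hc) (fun z => by
      rw [← Hl, ← equi1.dsc_proj, ← equi2.dsc_proj, ← Hl]
      exact hconj _)
  -- left inverse
  obtain ⟨l1, l2, hl⟩ := const_diff (f := fun z => K (H z)) (g := fun z => z)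
    (Kc.comp Hc) continuous_id (fun z => by
      rw [← Kl, ← Hl]
      exact hkl _)
  -- symmetry of the matrix
  have hsym : c12 = c21 := by
    have e1 := hk (0 + 1, 0)
    have e2 := hk (0, 0)
    have f1 := equi1 0 0 1 0
    rw [Int.cast_one, Int.cast_zero, add_zero] at f1
    rw [f1] at e1
    have g1 := hequi (F1 (0, 0)).1 (F1 (0, 0)).2 10 3
    have g2 := hequi 0 0 1 0
    rw [Int.cast_one, Int.cast_zero, add_zero] at g2
    have g3 := equi2 (H (0, 0)).1 (H (0, 0)).2 c11 c21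
    push_cast at e1 g1 g2 g3
    simp only [mul_one, mul_zero, add_zero] at e1 g1 g2 g3
    rw [g1, g2, g3] at e1
    have a1 := congrArg Prod.fst e1
    have a2 := congrArg Prod.fst e2
    simp only [Prod.mk.eta] at a1 a2
    have a3 : (c12 : ℝ) = c21 := by linarith
    exact_mod_cast a3
  -- the images of the fixed points
  have main : ∀ i j : ℤ, ∃ a b : ℤ, a = c21 * (3 * i + j) + c22 * i - k2 ∧
      b = (c11 * (3 * i + j) + c12 * i - k1) - 3 * a ∧ t1 i j = t2 a b := by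
    intro i j
    set p : ℝ × ℝ := ((i : ℝ) / 3, (j : ℝ) / 3) with hp
    set n1 : ℤ := c11 * (3 * i + j) + c12 * i - k1 with hn1
    set n2 : ℤ := c21 * (3 * i + j) + c22 * i - k2 with hn2
    refine ⟨n2, n1 - 3 * n2, rfl, rfl, ?_⟩
    have hFp : F1 p = (p.1 + ((3 * i + j : ℤ) : ℝ), p.2 + ((i : ℤ) : ℝ)) := hfix i j
    have h1 : H (F1 p) = ((F2 (H p)).1 + k1, (F2 (H p)).2 + k2) := hk p
    rw [hFp, hequi p.1 p.2 (3 * i + j) i] at h1
    have hG : F2 (H p) = ((H p).1 + n1, (H p).2 + n2) := by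
      have a1 := congrArg Prod.fst h1
      have a2 := congrArg Prod.snd h1
      simp only [Prod.mk.eta] at a1 a2
      rw [hn1, hn2]
      push_cast at a1 a2 ⊢
      ext
      · simp only; linarith
      · simp only; linarith
    have hq := huniq _ _ _ hG
    -- derivatives
    have hHd : ∀ z, HasFDerivAt H (fderiv ℝ H z) z := fun z =>
      (Hs.differentiable (by simp) z).hasFDerivAt
    have hGd : ∀ z, HasFDerivAt F2 (fderiv ℝ F2 z) z := fun z =>
      (F2s.differentiable (by simp) z).hasFDerivAt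
    have hKd : ∀ z, HasFDerivAt K (fderiv ℝ K z) z := fun z =>
      (Ks.differentiable (by simp) z).hasFDerivAt
    have hFd : ∀ z, HasFDerivAt F1 (fderiv ℝ F1 z) z := fun z =>
      (F1s.differentiable (by simp) z).hasFDerivAt
    have d1 := (hHd (F1 p)).comp p (hFd p)
    have d2 := (hGd (H p)).comp p (hHd p)
    have d3 : HasFDerivAt (H ∘ F1) ((fderiv ℝ F2 (H p)).comp (fderiv ℝ H p)) p := by
      have e : H ∘ F1 = fun z => (F2 ∘ H) z + (((k1 : ℤ) : ℝ), ((k2 : ℤ) : ℝ)) := by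
        funext z
        exact hk z
      rw [e]
      exact d2.add_const _
    have d4 := d1.unique d3
    have d5 : fderiv ℝ H (F1 p) = fderiv ℝ H p := by
      have e1 : HasFDerivAt (fun z : ℝ × ℝ => H (z + (((3 * i + j : ℤ) : ℝ), ((i : ℤ) : ℝ))))
          (fderiv ℝ H (F1 p)) p := by
        have e2 : F1 p = p + (((3 * i + j : ℤ) : ℝ), ((i : ℤ) : ℝ)) := hFp
        have e3 := hHd (F1 p)
        rw [e2] at e3 ⊢
        have e5 : HasFDerivAt (fun z : ℝ × ℝ => z + (((3 * i + j : ℤ) : ℝ), ((i : ℤ) : ℝ)))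
            (ContinuousLinearMap.id ℝ (ℝ × ℝ)) p := (hasFDerivAt_id p).add_const _
        have e6 := HasFDerivAt.comp p e3 e5
        rw [ContinuousLinearMap.comp_id] at e6
        exact e6
      have e4 : (fun z : ℝ × ℝ => H (z + (((3 * i + j : ℤ) : ℝ), ((i : ℤ) : ℝ))))
          = fun z => H z + (((c11 * (3 * i + j) + c12 * i : ℤ) : ℝ),
            ((c21 * (3 * i + j) + c22 * i : ℤ) : ℝ)) := by
        funext z
        exact hequi z.1 z.2 (3 * i + j) i
      rw [e4] at e1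
      exact e1.unique ((hHd p).add_const _)
    rw [d5] at d4
    have d6 : (fderiv ℝ K (H p)).comp (fderiv ℝ H p) = ContinuousLinearMap.id ℝ (ℝ × ℝ) := by
      have e1 := (hKd (H p)).comp p (hHd p)
      have e2 : K ∘ H = fun z => id z + (((l1 : ℤ) : ℝ), ((l2 : ℤ) : ℝ)) := by
        funext z
        exact hl z
      rw [e2] at e1
      exact e1.unique ((hasFDerivAt_id p).add_const _)
    have d7 := trace_conj d4 d6
    rw [hp, ht1, ← hp, hq, ht2] at d7
    exact d7
  exact ⟨c11, c12, c21, c22, k1, k2, hsym, main⟩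

/-- the product of the values of the derivative of the profile is `0`, `1` or `-1` -/
lemma chi_mul (a b : ℤ) : w' (a / 3) * w' (b / 3) ≤ 1 := by
  rcases chi_cases a with ⟨_, ea⟩ | ⟨_, ea⟩ | ⟨_, ea⟩ <;>
  rcases chi_cases b with ⟨_, eb⟩ | ⟨_, eb⟩ | ⟨_, eb⟩ <;>
  rw [ea, eb] <;> norm_num

end Pool.Agent.Y285.SPr
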