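import Pool.Agent.Y285.SPr.Conj2

/-!
# The smooth one-parameter families
-/

set_option autoImplicit false

open Set Filter Topology MeasureTheory Function
open scoped ContDiff ENNReal Real

namespace Pool.Agent.Y285.SPr

open Pool.Agent.H165P

open Pool.Agent.H165R3 (tl tl_pr tl_cont pr pr_surj pr_add_left pr_add_right per_int rep coe_rep
  coe_eq_iff rep_meas pr_quot)

/-- the perturbation with amplitude `κ` -/
noncomputable def Sk (κ : ℝ) (z : ℝ × ℝ) : ℝ × ℝ :=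
  (z.1 + 3 * κ / 100 * w (z.2 + κ / 100 * w z.1), z.2 + κ / 100 * w z.1)

/-- its inverse -/
noncomputable def Sik (κ : ℝ) (z : ℝ × ℝ) : ℝ × ℝ :=
  (z.1 - 3 * κ / 100 * w z.2, z.2 - κ / 100 * w (z.1 - 3 * κ / 100 * w z.2))

/-- the lift of the Anosov diffeomorphism with amplitude `κ` -/
noncomputable def Fk (κ : ℝ) (z : ℝ × ℝ) : ℝ × ℝ :=
  (10 * (Sk κ z).1 + 3 * (Sk κ z).2, 3 * (Sk κ z).1 + (Sk κ z).2)

/-- the lift of its inverse -/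
noncomputable def Fik (κ : ℝ) (z : ℝ × ℝ) : ℝ × ℝ := Sik κ (z.1 - 3 * z.2, -3 * z.1 + 10 * z.2)

/-- the lift of the second diffeomorphism with amplitude `κ` -/
noncomputable def Gk (κ : ℝ) (z : ℝ × ℝ) : ℝ × ℝ := Ji (Fik κ (J z))

theorem Sk_contDiff : ContDiff ℝ ∞ (fun q : ℝ × (ℝ × ℝ) => Sk q.1 q.2) := by
  have h0 : ContDiff ℝ ∞ (fun q : ℝ × (ℝ × ℝ) => q.1) := contDiff_fst
  have h1 : ContDiff ℝ ∞ (fun q : ℝ × (ℝ × ℝ) => q.2.1) := contDiff_fst.comp contDiff_snd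
  have h2 : ContDiff ℝ ∞ (fun q : ℝ × (ℝ × ℝ) => q.2.2) := contDiff_snd.comp contDiff_snd
  have h3 : ContDiff ℝ ∞ (fun q : ℝ × (ℝ × ℝ) => q.2.2 + q.1 / 100 * w q.2.1) :=
    h2.add ((h0.div_const 100).mul (w_contDiff.comp h1))
  exact (h1.add (((contDiff_const.mul h0).div_const 100).mul (w_contDiff.comp h3))).prodMk h3

theorem Sik_contDiff : ContDiff ℝ ∞ (fun q : ℝ × (ℝ × ℝ) => Sik q.1 q.2) := by
  have h0 : ContDiff ℝ ∞ (fun q : ℝ × (ℝ × ℝ) => q.1) := contDiff_fst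
  have h1 : ContDiff ℝ ∞ (fun q : ℝ × (ℝ × ℝ) => q.2.1) := contDiff_fst.comp contDiff_snd
  have h2 : ContDiff ℝ ∞ (fun q : ℝ × (ℝ × ℝ) => q.2.2) := contDiff_snd.comp contDiff_snd
  have h3 : ContDiff ℝ ∞ (fun q : ℝ × (ℝ × ℝ) => q.2.1 - 3 * q.1 / 100 * w q.2.2) :=
    h1.sub (((contDiff_const.mul h0).div_const 100).mul (w_contDiff.comp h2))
  exact h3.prodMk (h2.sub ((h0.div_const 100).mul (w_contDiff.comp h3)))

theorem Fk_contDiff : ContDiff ℝ ∞ (fun q : ℝ × (ℝ × ℝ) => Fk q.1 q.2) := by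
  have h1 := contDiff_fst.comp Sk_contDiff
  have h2 := contDiff_snd.comp Sk_contDiff
  exact ((contDiff_const.mul h1).add (contDiff_const.mul h2)).prodMk
    ((contDiff_const.mul h1).add h2)

theorem Gk_contDiff : ContDiff ℝ ∞ (fun q : ℝ × (ℝ × ℝ) => Gk q.1 q.2) := by
  have h0 : ContDiff ℝ ∞ (fun q : ℝ × (ℝ × ℝ) => q.1) := contDiff_fst
  have h1 : ContDiff ℝ ∞ (fun q : ℝ × (ℝ × ℝ) => q.2.1) := contDiff_fst.comp contDiff_snd
  have h2 : ContDiff ℝ ∞ (fun q : ℝ × (ℝ × ℝ) => q.2.2) := contDiff_snd.comp contDiff_snd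
  have h3 : ContDiff ℝ ∞ (fun q : ℝ × (ℝ × ℝ) => (q.1, (q.2.2 - 3 * -q.2.1,
      -3 * q.2.2 + 10 * -q.2.1))) :=
    h0.prodMk ((h2.sub (contDiff_const.mul h1.neg)).prodMk
      ((contDiff_const.mul h2).add (contDiff_const.mul h1.neg)))
  exact Ji_contDiff.comp (Sik_contDiff.comp h3)

theorem Fk_zero (z : ℝ × ℝ) : Fk 0 z = (10 * z.1 + 3 * z.2, 3 * z.1 + z.2) := by
  simp [Fk, Sk]

theorem Gk_zero (z : ℝ × ℝ) : Gk 0 z = (10 * z.1 + 3 * z.2, 3 * z.1 + z.2) := by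
  simp only [Gk, Fik, Sik, J, Ji]
  ext
  · simp only; ring
  · simp; ring

/-- the product of two values of the derivative of the profile -/
theorem even_part (t : ℝ) (a b : ℤ) : tauk t a b + tauk t (-a) (-b) =
    22 + 60 * t ^ 2 * (w' (a / 3) * w' (b / 3)) := by
  have h : ∀ a : ℤ, w' (((-a : ℤ) : ℝ) / 3) = -w' (a / 3) := by
    intro a
    rcases chi_cases a with ⟨h1, e1⟩ | ⟨h1, e1⟩ | ⟨h1, e1⟩ <;>
    rcases chi_cases (-a) with ⟨h2, e2⟩ | ⟨h2, e2⟩ | ⟨h2, e2⟩ <;>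
    first
      | (exfalso; omega)
      | (rw [e1, e2, neg_zero])
      | (rw [e1, e2, neg_neg])
      | (rw [e1, e2])
  unfold tauk
  rw [h, h]
  ring

/-- two comparable trace functions have the same parameter -/
theorem par_eq {t s : ℝ} (ht : 0 < t) (hs : 0 < s) (hs1 : s ≤ 1 / 100)
    (t2 : ℤ → ℤ → ℝ) (σ : ℤ → ℤ → ℤ × ℤ) (hσ : ∀ a b, t2 a b = tauk s (σ a b).1 (σ a b).2)
    (hσn : ∀ a b, σ (-a) (-b) = (-(σ a b).1, -(σ a b).2))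
    (hσp : ∀ a b m n : ℤ, t2 (a + 3 * m) (b + 3 * n) = t2 a b)
    (hσ0 : ∀ a b : ℤ, (σ a b).1 % 3 = 0 → (σ a b).2 % 3 = 0 → a % 3 = 0 ∧ b % 3 = 0)
    {c11 c12 c21 c22 k1 k2 : ℤ}
    (hmain : ∀ i j : ℤ, ∃ a b : ℤ, a = c21 * (3 * i + j) + c22 * i - k2 ∧
      b = (c11 * (3 * i + j) + c12 * i - k1) - 3 * a ∧ tauk t i j = t2 a b) : t = s := by
  have hone : w' (((1 : ℤ) : ℝ) / 3) = 1 := by
    rcases chi_cases 1 with ⟨h1, e1⟩ | ⟨h1, e1⟩ | ⟨h1, e1⟩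
    · exfalso; omega
    · exact e1
    · exfalso; omega
  have hzero : w' (((0 : ℤ) : ℝ) / 3) = 0 := by
    rcases chi_cases 0 with ⟨h1, e1⟩ | ⟨h1, e1⟩ | ⟨h1, e1⟩
    · exact e1
    · exfalso; omega
    · exfalso; omega
  obtain ⟨a0, b0, ha0, hb0, h0⟩ := hmain 0 0
  have h00 : tauk t 0 0 = tauk s 0 0 := by
    unfold tauk
    rw [hzero]
    ring
  rw [hσ, h00] at h0
  have h01 := tauk_inj hs hs1 h0
  have h02 := hσ0 a0 b0 (by omega) (by omega)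
  obtain ⟨a1, b1, ha1, hb1, h1⟩ := hmain 1 1
  obtain ⟨a2, b2, ha2, hb2, h2⟩ := hmain (-1) (-1)
  -- `(a2, b2)` is congruent to `(-a1, -b1)`
  obtain ⟨m, hm⟩ : ∃ m : ℤ, a2 = -a1 + 3 * m := ⟨(a2 + a1) / 3, by omega⟩
  obtain ⟨n, hn⟩ : ∃ n : ℤ, b2 = -b1 + 3 * n := ⟨(b2 + b1) / 3, by omega⟩
  rw [hm, hn, hσp, hσ, hσn] at h2
  rw [hσ] at h1
  have e1 := even_part s (σ a1 b1).1 (σ a1 b1).2
  have e2 := even_part t 1 1
  rw [hone] at e2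
  simp only at h2
  rw [← h1, ← h2, e2] at e1
  have h4 : t ^ 2 = s ^ 2 := by
    rcases chi_cases (σ a1 b1).1 with ⟨_, e3⟩ | ⟨_, e3⟩ | ⟨_, e3⟩ <;>
    rcases chi_cases (σ a1 b1).2 with ⟨_, e4⟩ | ⟨_, e4⟩ | ⟨_, e4⟩ <;>
    rw [e3, e4] at e1 <;>
    first
      | linarith
      | (exfalso; nlinarith [pow_pos ht 2, pow_pos hs 2])
  exact (pow_left_inj₀ ht.le hs.le two_ne_zero).1 h4

section
variable [Amp]

theorem F_eq_Fk : F = Fk Amp.κ := rfl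
theorem G_eq_Gk : G = Gk Amp.κ := rfl

theorem traceF (i j : ℤ) : LinearMap.trace ℝ (ℝ × ℝ)
    (fderiv ℝ F ((i : ℝ) / 3, (j : ℝ) / 3) : ℝ × ℝ →ₗ[ℝ] ℝ × ℝ) = tauk (Amp.κ / 100) i j := by
  rw [(F_deriv _).fderiv, trace_mat, trace_F]
  rfl

theorem traceG (i j : ℤ) : LinearMap.trace ℝ (ℝ × ℝ)
    (fderiv ℝ G ((i : ℝ) / 3, (j : ℝ) / 3) : ℝ × ℝ →ₗ[ℝ] ℝ × ℝ) = tauk (Amp.κ / 100) j (-i) := by
  rw [trace_G]
  rfl

end

/-- the pairs for the amplitude `κ` -/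
theorem pair {κ : ℝ} (h0 : 0 < κ) (h1 : κ ≤ 1) :
    ∃ (Es Eu Es' Eu' : Torus → Submodule ℝ (ℝ × ℝ)),
      IsAnosov (dsc (Fk κ)) (Fk κ) Es Eu ∧ IsAnosov (dsc (Gk κ)) (Gk κ) Es' Eu' ∧
      MeasurePreserving (dsc (Fk κ)) (volume : Measure Torus) volume ∧
      MeasurePreserving (dsc (Gk κ)) (volume : Measure Torus) volume ∧
      AreHomotopic (dsc (Fk κ)) (dsc (Gk κ)) ∧
      ∀ t : ℝ, pressure (dsc (Fk κ)) (Fk κ) Eu t = pressure (dsc (Gk κ)) (Gk κ) Eu' t := by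
  let A1 : Amp := ⟨κ, h0, h1⟩
  obtain ⟨s, u, β, α, D⟩ := exists_fields
  exact ⟨spn s, spn u, _, _, D.anosov, (fields_G D).anosov, fT_mp, gT_mp, homotopic, pressure_eq D⟩

/-- the diffeomorphisms of the first family are pairwise not smoothly conjugate -/
theorem not_conj_FF {κ κ' : ℝ} (h0 : 0 < κ) (h1 : κ ≤ 1) (h0' : 0 < κ') (h1' : κ' ≤ 1)
    (h : AreSmoothlyConjugate (dsc (Fk κ)) (dsc (Fk κ'))) : κ = κ' := by
  let A1 : Amp := ⟨κ, h0, h1⟩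
  let A2 : Amp := ⟨κ', h0', h1'⟩
  obtain ⟨c11, c12, c21, c22, k1, k2, -, hmain⟩ := conj_main (F1 := Fk κ) (F2 := Fk κ')
    (@F_contDiff A1) (@F_contDiff A2) (@equiF A1) (@equiF A2) (@F_fix A1)
    (fun q n1 n2 hq => @F_uniq A2 q n1 n2 hq) _ _ (@traceF A1) (@traceF A2) h
  have h2 := par_eq (t := κ / 100) (s := κ' / 100) (by positivity) (by positivity) (by linarith)
    (fun a b => tauk (κ' / 100) a b) (fun a b => (a, b)) (fun a b => rfl) (fun a b => rfl)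
    (fun a b m n => tauk_per _ _ _ _ _) (fun a b ha hb => ⟨ha, hb⟩) hmain
  linarith

/-- no diffeomorphism of the first family is smoothly conjugate to one of the second -/
theorem not_conj_FG {κ κ' : ℝ} (h0 : 0 < κ) (h1 : κ ≤ 1) (h0' : 0 < κ') (h1' : κ' ≤ 1) :
    ¬ AreSmoothlyConjugate (dsc (Fk κ)) (dsc (Gk κ')) := by
  intro h
  let A1 : Amp := ⟨κ, h0, h1⟩
  let A2 : Amp := ⟨κ', h0', h1'⟩
  obtain ⟨c11, c12, c21, c22, k1, k2, hsym, hmain⟩ := conj_main (F1 := Fk κ) (F2 := Gk κ')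
    (@F_contDiff A1) (@G_contDiff A2) (@equiF A1) (@equiG A2) (@F_fix A1)
    (fun q n1 n2 hq => @G_uniq A2 q n1 n2 hq) _ _ (@traceF A1) (@traceG A2) h
  have h2 := par_eq (t := κ / 100) (s := κ' / 100) (by positivity) (by positivity) (by linarith)
    (fun a b => tauk (κ' / 100) b (-a)) (fun a b => (b, -a)) (fun a b => rfl) (fun a b => rfl)
    (fun a b m n => by
      have e : -(a + 3 * m) = -a + 3 * (-m) := by ring
      rw [e, tauk_per]) (fun a b ha hb => ⟨by simp only at hb; omega, ha⟩) hmain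
  have h3 : 0 < κ' / 100 := by positivity
  have h4 : κ' / 100 ≤ 1 / 100 := by linarith
  obtain ⟨a0, b0, ha0, hb0, e0⟩ := hmain 0 0
  obtain ⟨a1, b1, ha1, hb1, e1⟩ := hmain 1 0
  obtain ⟨a2, b2, ha2, hb2, e2⟩ := hmain 0 1
  change tauk (κ / 100) _ _ = tauk (κ' / 100) _ _ at e0 e1 e2
  rw [h2] at e0 e1 e2
  have t0 := tauk_inj h3 h4 e0
  have t1 := tauk_inj h3 h4 e1
  have t2 := tauk_inj h3 h4 e2
  omega

end Pool.Agent.Y285.SPr
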