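import Pool.Agent.Y285.SPr.Map

/-!
# Both diffeomorphisms are Anosov and have the same pressure
-/

set_option autoImplicit false

open Set Filter Topology MeasureTheory Function
open scoped ContDiff ENNReal Real

namespace Pool.Agent.Y285.SPr

open Pool.Agent.H165P

open Pool.Agent.H165R3 (tl tl_pr tl_cont pr pr_surj pr_add_left pr_add_right per_int rep coe_rep
  coe_eq_iff)

variable [Amp]

lemma pp_per1 (x y : ℝ) : pp (x + 1, y) = pp (x, y) := by unfold pp; simp only [w'_per]
lemma pp_per2 (x y : ℝ) : pp (x, y + 1) = pp (x, y) := rfl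
lemma qq_per1 (x y : ℝ) : qq (x + 1, y) = qq (x, y) := by unfold qq; simp only [w_per]
lemma qq_per2 (x y : ℝ) : qq (x, y + 1) = qq (x, y) := by
  unfold qq
  simp only
  rw [show y + 1 + ta * w x = (y + ta * w x) + 1 by ring, w'_per]

lemma pp_cont : Continuous pp := by
  unfold pp
  exact continuous_const.mul (w'_cont.comp continuous_fst)
lemma qq_cont : Continuous qq := by
  unfold qq
  exact continuous_const.mul (w'_cont.comp (continuous_snd.add
    (continuous_const.mul (w_cont.comp continuous_fst))))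

/-- coefficient functions on the torus -/
noncomputable def A : Torus → ℝ := tl ca
noncomputable def B : Torus → ℝ := tl cb
noncomputable def Cc : Torus → ℝ := tl cc
noncomputable def Dd : Torus → ℝ := tl cd

lemma ca_p1 (x y : ℝ) : ca (x + 1, y) = ca (x, y) := by unfold ca; rw [pp_per1, qq_per1]
lemma ca_p2 (x y : ℝ) : ca (x, y + 1) = ca (x, y) := by unfold ca; rw [pp_per2, qq_per2]
lemma cb_p1 (x y : ℝ) : cb (x + 1, y) = cb (x, y) := by unfold cb; rw [qq_per1]
lemma cb_p2 (x y : ℝ) : cb (x, y + 1) = cb (x, y) := by unfold cb; rw [qq_per2]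
lemma cc_p1 (x y : ℝ) : cc (x + 1, y) = cc (x, y) := by unfold cc; rw [pp_per1, qq_per1]
lemma cc_p2 (x y : ℝ) : cc (x, y + 1) = cc (x, y) := by unfold cc; rw [pp_per2, qq_per2]
lemma cd_p1 (x y : ℝ) : cd (x + 1, y) = cd (x, y) := by unfold cd; rw [qq_per1]
lemma cd_p2 (x y : ℝ) : cd (x, y + 1) = cd (x, y) := by unfold cd; rw [qq_per2]

lemma A_proj (z : ℝ × ℝ) : A (proj z) = ca z := tl_pr ca_p1 ca_p2 z
lemma B_proj (z : ℝ × ℝ) : B (proj z) = cb z := tl_pr cb_p1 cb_p2 z
lemma C_proj (z : ℝ × ℝ) : Cc (proj z) = cc z := tl_pr cc_p1 cc_p2 z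
lemma D_proj (z : ℝ × ℝ) : Dd (proj z) = cd z := tl_pr cd_p1 cd_p2 z

lemma A_cont : Continuous A := tl_cont (by
  unfold ca; exact (continuous_const.mul (continuous_const.add (pp_cont.mul qq_cont))).add
    (continuous_const.mul pp_cont)) ca_p1 ca_p2
lemma B_cont : Continuous B := tl_cont (by
  unfold cb; exact (continuous_const.mul qq_cont).add continuous_const) cb_p1 cb_p2
lemma C_cont : Continuous Cc := tl_cont (by
  unfold cc; exact (continuous_const.mul (continuous_const.add (pp_cont.mul qq_cont))).add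
    pp_cont) cc_p1 cc_p2
lemma D_cont : Continuous Dd := tl_cont (by
  unfold cd; exact (continuous_const.mul qq_cont).add continuous_const) cd_p1 cd_p2

lemma coef_bounds (x : Torus) : 9 ≤ A x ∧ 0 ≤ B x ∧ 0 ≤ Cc x ∧ 0 ≤ Dd x ∧ Cc x + Dd x ≤ A x ∧
    B x + Dd x ≤ A x ∧ A x * Dd x - B x * Cc x = 1 := by
  obtain ⟨z, rfl⟩ := proj_surj x
  rw [A_proj, B_proj, C_proj, D_proj]
  have h1 := abs_le.mp (pp_bound z)
  have h2 := abs_le.mp (qq_bound z)
  have h3 := abs_le.mp (pq_bound z)
  have e1 : ca z = 10 * (1 + pp z * qq z) + 3 * pp z := rfl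
  have e2 : cb z = 10 * qq z + 3 := rfl
  have e3 : cc z = 3 * (1 + pp z * qq z) + pp z := rfl
  have e4 : cd z = 3 * qq z + 1 := rfl
  refine ⟨?_, ?_, ?_, ?_, ?_, ?_, cdet z⟩
  all_goals linarith [h1.1, h1.2, h2.1, h2.2, h3.1, h3.2]

lemma exists_fields : ∃ (s u : Torus → ℝ × ℝ) (β α : Torus → ℝ), Fields fT F s u β α := by
  obtain ⟨m, hmc, hm, hmeq⟩ := exists_slope (φi := fiT) (a := A) (b := B) (c := Cc) (d := Dd) fT
    fiT_cont fi_f A_cont B_cont C_cont D_cont (fun x => by linarith [(coef_bounds x).1])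
    (fun x => (coef_bounds x).2.1) (fun x => (coef_bounds x).2.2.1)
    (fun x => (coef_bounds x).2.2.2.1) (fun x => (coef_bounds x).2.2.2.2.1)
    (fun x => (coef_bounds x).2.2.2.2.2.2)
  obtain ⟨σ, hσc, hσ, hσeq⟩ := exists_slope (φi := fT) (a := A ∘ fiT) (b := Cc ∘ fiT)
    (c := B ∘ fiT) (d := Dd ∘ fiT) fiT fT_cont f_fi (A_cont.comp fiT_cont) (C_cont.comp fiT_cont)
    (B_cont.comp fiT_cont) (D_cont.comp fiT_cont)
    (fun x => by have := (coef_bounds (fiT x)).1; simp only [comp_apply]; linarith)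
    (fun x => (coef_bounds (fiT x)).2.2.1) (fun x => (coef_bounds (fiT x)).2.1)
    (fun x => (coef_bounds (fiT x)).2.2.2.1) (fun x => (coef_bounds (fiT x)).2.2.2.2.2.1)
    (fun x => by
      have := (coef_bounds (fiT x)).2.2.2.2.2.2
      simp only [comp_apply]
      linarith)
  have hσ2 : ∀ x, σ x * (A x + Cc x * σ (fT x)) = B x + Dd x * σ (fT x) := by
    intro x
    have h := hσeq (fT x)
    simp only [comp_apply] at h
    rw [fi_f x] at h
    exact h
  have hden : ∀ x, 9 ≤ A x + Cc x * σ (fT x) := fun x => by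
    have h1 := mul_nonneg (coef_bounds x).2.2.1 (hσ (fT x)).1
    linarith [(coef_bounds x).1]
  have hden2 : ∀ x, 9 ≤ A x + B x * m x := fun x => by
    have h1 := mul_nonneg (coef_bounds x).2.1 (hm x).1
    linarith [(coef_bounds x).1]
  have hβ : ∀ x, 1 / (A x + Cc x * σ (fT x)) = Dd x - Cc x * σ x := by
    intro x
    have h9 : A x + Cc x * σ (fT x) ≠ 0 := by linarith [hden x]
    rw [div_eq_iff h9]
    have h1 := (coef_bounds x).2.2.2.2.2.2
    linear_combination (-1) * h1 + Cc x * hσ2 x
  refine ⟨fun x => (-σ x, 1), fun x => (1, m x), fun x => 1 / (A x + Cc x * σ (fT x)),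
    fun x => A x + B x * m x, ?_⟩
  refine
    { fcont := fT_cont
      diffeo := diffeoF
      scont := hσc.neg.prodMk continuous_const
      ucont := continuous_const.prodMk hmc
      βcont := continuous_const.div (A_cont.add (C_cont.mul (hσc.comp fT_cont)))
        fun x => by linarith [hden x]
      αcont := A_cont.add (B_cont.mul hmc)
      hs := ?_, hu := ?_
      β0 := fun x => one_div_pos.mpr (by linarith [hden x])
      β1 := fun x => by
        rw [div_le_div_iff₀ (by linarith [hden x]) (by norm_num)]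
        linarith [hden x]
      α1 := fun x => by linarith [hden2 x]
      dne := ?_, cons := ?_ }
  · intro z
    rw [(F_deriv z).fderiv, mat_apply, ← A_proj, ← B_proj, ← C_proj, ← D_proj]
    have h1 := hσ2 (proj z)
    have h2 := hβ (proj z)
    have h9 : A (proj z) + Cc (proj z) * σ (fT (proj z)) ≠ 0 := by linarith [hden (proj z)]
    ext
    · simp only [Prod.smul_fst, smul_eq_mul]
      rw [div_mul_eq_mul_div, eq_div_iff h9]
      have h3 := (coef_bounds (proj z)).2.2.2.2.2.2
      linear_combination (-(A (proj z))) * h1 - σ (fT (proj z)) * h3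
    · simp only [Prod.smul_snd, smul_eq_mul, mul_one]
      rw [h2]
      ring
  · intro z
    rw [(F_deriv z).fderiv, mat_apply, ← A_proj, ← B_proj, ← C_proj, ← D_proj]
    have h1 := hmeq (proj z)
    ext
    · simp only [Prod.smul_fst, smul_eq_mul]
      ring
    · simp only [Prod.smul_snd, smul_eq_mul]
      linarith
  · intro x
    unfold dt
    simp only
    have := mul_nonneg (hσ x).1 (hm x).1
    nlinarith
  · intro x
    have h9 : A x + Cc x * σ (fT x) ≠ 0 := by linarith [hden x]
    have e1 : dt (-σ x, 1) (1, m x) = -(1 + σ x * m x) := by unfold dt; simp only; ring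
    have e2 : dt (-σ (fT x), 1) (1, m (fT x)) = -(1 + σ (fT x) * m (fT x)) := by
      unfold dt; simp only; ring
    have p1 := mul_nonneg (hσ x).1 (hm x).1
    have p2 := mul_nonneg (hσ (fT x)).1 (hm (fT x)).1
    rw [e1, e2, abs_neg, abs_neg, abs_of_pos (by linarith), abs_of_pos (by linarith)]
    rw [mul_one_div, div_mul_eq_mul_div, div_eq_iff h9]
    have h1 := hσ2 x
    have h2 := hmeq x
    have h3 := (coef_bounds x).2.2.2.2.2.2
    linear_combination σ (fT x) * h2 - m x * h1

/-- The fields of the second diffeomorphism. -/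
lemma fields_G {s u : Torus → ℝ × ℝ} {β α : Torus → ℝ} (D : Fields fT F s u β α) :
    Fields gT G (fun x => Ji (u (JT x))) (fun x => Ji (s (JT x)))
      (fun x => 1 / α (fiT (JT x))) (fun x => 1 / β (fiT (JT x))) := by
  have hJc : Continuous Ji := Ji_contDiff.continuous
  have hGd : ∀ z v, fderiv ℝ G z v = Ji (fderiv ℝ Fi (J z) (J v)) := by
    intro z v
    have h1 : HasFDerivAt J (mat 0 1 (-1) 0) z := by
      have h2 := (hasFDerivAt_snd (𝕜 := ℝ) (p := z)).prodMk (hasFDerivAt_fst (𝕜 := ℝ) (p := z)).neg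
      refine h2.congr_fderiv ?_
      apply ContinuousLinearMap.ext
      intro v
      simp
    have h3 : ∀ y, HasFDerivAt Ji (mat 0 (-1) 1 0) y := by
      intro y
      have h2 := (hasFDerivAt_snd (𝕜 := ℝ) (p := y)).neg.prodMk (hasFDerivAt_fst (𝕜 := ℝ) (p := y))
      refine h2.congr_fderiv ?_
      apply ContinuousLinearMap.ext
      intro v
      simp
    have h4 : HasFDerivAt Fi (fderiv ℝ Fi (J z)) (J z) :=
      (Fi_contDiff.differentiable (by simp) _).hasFDerivAt
    have h5 := (h3 (Fi (J z))).comp z (h4.comp z h1)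
    have h6 : fderiv ℝ G z = (mat 0 (-1) 1 0).comp ((fderiv ℝ Fi (J z)).comp (mat 0 1 (-1) 0)) :=
      h5.fderiv
    rw [h6]
    simp only [ContinuousLinearMap.comp_apply, mat_apply]
    unfold Ji J
    simp
  -- the derivative of the inverse
  have hFi : ∀ (y : ℝ × ℝ) (v : Torus → ℝ × ℝ) (c : Torus → ℝ), (∀ x, c x ≠ 0) →
      (∀ z, fderiv ℝ F z (v (proj z)) = c (proj z) • v (fT (proj z))) →
      fderiv ℝ Fi y (v (proj y)) = (1 / c (fiT (proj y))) • v (fiT (proj y)) := by
    intro y v c hc h
    have h1 := h (Fi y)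
    rw [← equiFi.dsc_proj] at h1
    have h2 : fT (dsc Fi (proj y)) = proj y := f_fi (proj y)
    rw [h2] at h1
    have h3 : v (proj y) = (1 / c (dsc Fi (proj y))) • fderiv ℝ F (Fi y) (v (dsc Fi (proj y))) := by
      rw [h1, smul_smul, one_div, inv_mul_cancel₀ (hc _), one_smul]
    have h4 : ∀ v, fderiv ℝ Fi y (fderiv ℝ F (Fi y) v) = v := by
      intro v
      rw [(Fi_deriv y).fderiv, (F_deriv (Fi y)).fderiv, mat_apply, mat_apply]
      have h7 := cdet (Fi y)
      ext
      · simp only; linear_combination v.1 * h7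
      · simp only; linear_combination v.2 * h7
    conv_lhs => rw [h3]
    rw [map_smul, h4]
  have key : ∀ (v : Torus → ℝ × ℝ) (c : Torus → ℝ), (∀ x, c x ≠ 0) →
      (∀ z, fderiv ℝ F z (v (proj z)) = c (proj z) • v (fT (proj z))) →
      ∀ z, fderiv ℝ G z (Ji (v (JT (proj z))))
        = (1 / c (fiT (JT (proj z)))) • Ji (v (JT (gT (proj z)))) := by
    intro v c hc h z
    rw [hGd, J_Ji]
    have h1 : JT (proj z) = proj (J z) := equiJ.dsc_proj z
    rw [J_g, h1, hFi (J z) v c hc h]
    unfold Ji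
    ext <;> simp
  have hJ : ∀ v w, dt (Ji v) (Ji w) = dt v w := by
    intro v w
    unfold dt Ji
    simp only
    ring
  exact
    { fcont := gT_cont
      diffeo := diffeoG
      scont := hJc.comp (D.ucont.comp JT_cont)
      ucont := hJc.comp (D.scont.comp JT_cont)
      βcont := continuous_const.div (D.αcont.comp (fiT_cont.comp JT_cont)) fun x => (D.α0 _).ne'
      αcont := continuous_const.div (D.βcont.comp (fiT_cont.comp JT_cont)) fun x => (D.β0 _).ne'
      hs := key u α (fun x => (D.α0 x).ne') D.hu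
      hu := key s β (fun x => (D.β0 x).ne') D.hs
      β0 := fun x => one_div_pos.mpr (D.α0 _)
      β1 := fun x => one_div_le_one_div_of_le (by norm_num) (D.α1 _)
      α1 := fun x => by
        rw [le_div_iff₀ (D.β0 _)]
        linarith [D.β1 (fiT (JT x))]
      dne := fun x => by
        rw [hJ]
        have := D.dne (JT x)
        unfold dt at this ⊢
        intro h
        apply this
        linarith
      cons := fun x => by
        rw [hJ, hJ, J_g]
        have h1 := D.cons (fiT (JT x))
        have h2 : fT (fiT (JT x)) = JT x := f_fi _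
        rw [h2] at h1
        have h3 : ∀ v w, |dt v w| = |dt w v| := by
          intro v w
          rw [← abs_neg]
          congr 1
          unfold dt
          ring
        rw [h3 (u _), h3 (u (JT x)), ← h1]
        have a1 := (D.α0 (fiT (JT x))).ne'
        have a2 := (D.β0 (fiT (JT x))).ne'
        field_simp }

theorem pressure_eq {s u : Torus → ℝ × ℝ} {β α : Torus → ℝ} (D : Fields fT F s u β α) (t : ℝ) :
    pressure fT F (spn u) t = pressure gT G (spn fun x => Ji (s (JT x))) t := by
  have D' := fields_G D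
  apply le_antisymm
  · refine D'.pressure_le D giT_cont gi_g g_gi JiT_cont JT_cont j_ji Ji_f ?_ t
    intro x
    show α x * (1 / α (fiT (JT (giT (JiT x))))) = 1
    have h1 : fiT (JT (giT (JiT x))) = x := by
      rw [← Ji_f, j_ji (fT x), fi_f x]
    rw [h1, mul_one_div, div_self (D.α0 x).ne']
  · refine D.pressure_le D' fiT_cont fi_f f_fi JT_cont JiT_cont ji_j J_g ?_ t
    intro x
    show 1 / β (fiT (JT x)) * β (fiT (JT x)) = 1
    rw [div_mul_cancel₀ _ (D.β0 _).ne']

end Pool.Agent.Y285.SPr
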